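import Pool.Agent.H699.MW.Defs

/-!
ROB, REB: after some levels every possible value can be forced.
-/

set_option autoImplicit false

open MeasureTheory Finset
open scoped Classical

namespace Pool.Agent.H769.MW.ROB

open Pool.Agent.H699.MW

theorem pmax_nonneg {ι : Type*} (s : Finset ι) (x : ι → ℝ) : 0 ≤ pmax s x :=
  (Finset.le_fold_max 0).2 (Or.inl le_rfl)

theorem le_pmax {ι : Type*} {s : Finset ι} (x : ι → ℝ) {i : ι} (hi : i ∈ s) : x i ≤ pmax s x :=
  (Finset.le_fold_max (x i)).2 (Or.inr ⟨i, hi, le_rfl⟩)

theorem pmax_le {ι : Type*} {s : Finset ι} {x : ι → ℝ} {c : ℝ} (hc : 0 ≤ c)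
    (h : ∀ i ∈ s, x i ≤ c) : pmax s x ≤ c :=
  (Finset.fold_max_le c).2 ⟨hc, h⟩

theorem pmax_mono {ι : Type*} {s : Finset ι} {x y : ι → ℝ} (h : ∀ i ∈ s, x i ≤ y i) :
    pmax s x ≤ pmax s y :=
  pmax_le (pmax_nonneg s y) fun i hi => (h i hi).trans (le_pmax y hi)

section

variable {a b : ℝ}

theorem ext_zero_f (T : RT) : ext a b 0 T false = 0 := by
  unfold Pool.Agent.H699.MW.ext
  rfl

theorem ext_zero_t (T : RT) : ext a b 0 T true = b := by
  unfold Pool.Agent.H699.MW.ext
  rfl

theorem rob_zero_f (T : RT) : rob a b 0 T false = b := by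
  unfold rob
  rfl

theorem rob_zero_t (T : RT) : rob a b 0 T true = 0 := by
  unfold rob
  rfl

theorem ext_succ_f (n k : ℕ) (c : Fin k → RT) : ext a b (n + 1) (.node k c) false =
    pmax univ fun i : Fin k => a - ext a b n (c i) true := by
  conv_lhs => unfold Pool.Agent.H699.MW.ext
  rfl

theorem ext_succ_t (n k : ℕ) (c : Fin k → RT) : ext a b (n + 1) (.node k c) true =
    pmax univ fun i : Fin k => b - ext a b n (c i) false := by
  conv_lhs => unfold Pool.Agent.H699.MW.ext
  rfl

theorem rob_succ_f (n k : ℕ) (c : Fin k → RT) : rob a b (n + 1) (.node k c) false =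
    pmax univ fun i : Fin k => a - rob a b n (c i) true := by
  conv_lhs => unfold rob
  rfl

theorem rob_succ_t (n k : ℕ) (c : Fin k → RT) : rob a b (n + 1) (.node k c) true =
    pmax univ fun i : Fin k => b - rob a b n (c i) false := by
  conv_lhs => unfold rob
  rfl

variable (ha : 0 ≤ a) (hab : a < b)

include ha hab

/-- the range of the extreme values -/
theorem ext_bds (n : ℕ) : ∀ T : RT, 0 ≤ ext a b n T false ∧
    ext a b n T false ≤ ext a b n T true ∧ ext a b n T true ≤ b := by
  induction n with
  | zero =>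
    intro T
    rw [ext_zero_f, ext_zero_t]
    exact ⟨le_rfl, by linarith, le_rfl⟩
  | succ n ih =>
    rintro ⟨k, c⟩
    rw [ext_succ_f, ext_succ_t]
    refine ⟨pmax_nonneg _ _, pmax_mono fun i _ => ?_, pmax_le (by linarith) fun i _ => ?_⟩
    · have := (ih (c i)).2.1
      linarith
    · have := (ih (c i)).1
      linarith

/-- monotonicity in the level -/
theorem ext_mono (m : ℕ) : ∀ n, m ≤ n → ∀ T : RT,
    (ext a b m T false ≤ ext a b n T false ∧ ext a b n T false ≤ rob a b m T false) ∧
    (rob a b m T true ≤ ext a b n T true ∧ ext a b n T true ≤ ext a b m T true) := by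
  induction m with
  | zero =>
    intro n _ T
    have h := ext_bds ha hab n T
    rw [ext_zero_f, ext_zero_t, rob_zero_f, rob_zero_t]
    exact ⟨⟨h.1, h.2.1.trans h.2.2⟩, h.1.trans h.2.1, h.2.2⟩
  | succ m ih =>
    rintro (_ | n) hn ⟨k, c⟩
    · omega
    · have hmn : m ≤ n := by omega
      rw [ext_succ_f, ext_succ_f, rob_succ_f, ext_succ_t, ext_succ_t, rob_succ_t]
      refine ⟨⟨pmax_mono fun i _ => ?_, pmax_mono fun i _ => ?_⟩,
        pmax_mono fun i _ => ?_, pmax_mono fun i _ => ?_⟩
      · have := (ih n hmn (c i)).2.2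
        linarith
      · have := (ih n hmn (c i)).2.1
        linarith
      · have := (ih n hmn (c i)).1.2
        linarith
      · have := (ih n hmn (c i)).1.1
        linarith

omit ha hab in
/-- one level, from the lower value to the upper value of the parent -/
theorem up_step {m : ℕ} {B : ℝ} (h : ∀ T : RT, rob a b m T false ≤ max (ext a b m T false) B)
    (T : RT) : min (ext a b (m + 1) T true) (b - B) ≤ rob a b (m + 1) T true := by
  obtain ⟨k, c⟩ := T
  rcases le_or_gt (b - B) (rob a b (m + 1) (.node k c) true) with h1 | h1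
  · exact (min_le_right _ _).trans h1
  · refine (min_le_left _ _).trans ?_
    rw [ext_succ_t]
    refine pmax_le ?_ fun j _ => ?_
    · rw [rob_succ_t]
      exact pmax_nonneg _ _
    · have h2 : b - rob a b m (c j) false ≤ rob a b (m + 1) (.node k c) true := by
        rw [rob_succ_t]
        exact le_pmax (fun i : Fin k => b - rob a b m (c i) false) (mem_univ j)
      rcases le_max_iff.1 (h (c j)) with h3 | h3
      · linarith
      · linarith

/-- the main estimate -/
theorem rob_le (m : ℕ) : ∀ T : RT,
    rob a b m T false ≤ max (ext a b m T false) (b - ((m / 2 : ℕ) : ℝ) * (b - a)) := by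
  induction m using Nat.twoStepInduction with
  | zero =>
    intro T
    rw [rob_zero_f]
    refine le_max_of_le_right ?_
    norm_num
  | one =>
    rintro ⟨k, c⟩
    refine le_max_of_le_right ?_
    have e : ((1 / 2 : ℕ) : ℝ) = 0 := by norm_num
    rw [e, rob_succ_f 0 k c]
    refine pmax_le (by linarith) fun i _ => ?_
    rw [rob_zero_t]
    linarith
  | more m ih _ =>
    rintro ⟨k, c⟩
    have e : ((m + 2) / 2 : ℕ) = m / 2 + 1 := by omega
    rw [e]
    set B : ℝ := b - ((m / 2 : ℕ) : ℝ) * (b - a) with hB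
    have e2 : b - (((m / 2 + 1 : ℕ)) : ℝ) * (b - a) = B - (b - a) := by
      rw [hB]
      push_cast
      ring
    rw [e2, rob_succ_f (m + 1) k c]
    refine pmax_le ?_ fun i _ => ?_
    · exact le_max_of_le_left (ext_bds ha hab _ _).1
    · have h1 := up_step ih (c i)
      have h2 : a - ext a b (m + 1) (c i) true ≤ ext a b (m + 2) (.node k c) false := by
        rw [ext_succ_f (m + 1) k c]
        exact le_pmax (fun i : Fin k => a - ext a b (m + 1) (c i) true) (mem_univ i)
      rcases min_le_iff.1 h1 with h3 | h3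
      · exact le_max_of_le_left (by linarith)
      · exact le_max_of_le_right (by linarith)

end

/-- ROB. -/
theorem t_ROB : S_ROB := by
  intro a b ha hab
  obtain ⟨K, hK⟩ := exists_nat_gt (b / (b - a))
  have hd : 0 < b - a := by linarith
  have hK2 : b - (K : ℝ) * (b - a) ≤ 0 := by
    rw [div_lt_iff₀ hd] at hK
    linarith
  -- equality of the lower values
  have hf : ∀ m, m / 2 = K → ∀ T : RT, rob a b m T false = ext a b m T false := by
    intro m hm T
    refine le_antisymm ?_ (ext_mono ha hab m m le_rfl T).1.2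
    have h1 := rob_le ha hab m T
    rw [hm] at h1
    rcases le_max_iff.1 h1 with h | h
    · exact h
    · exact (h.trans hK2).trans (ext_bds ha hab m T).1
  have hM : ∀ (T : RT) (s : Bool), rob a b (2 * K + 1) T s = ext a b (2 * K + 1) T s := by
    rintro ⟨k, c⟩ s
    cases s with
    | false => exact hf _ (by omega) _
    | true =>
      rw [rob_succ_t, ext_succ_t]
      have e : (fun i : Fin k => b - rob a b (2 * K) (c i) false) =
          fun i : Fin k => b - ext a b (2 * K) (c i) false := by
        funext i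
        rw [hf (2 * K) (by omega) (c i)]
      rw [e]
  refine ⟨2 * K + 1, fun n hn T s => ?_⟩
  have h := ext_mono ha hab (2 * K + 1) n hn T
  cases s with
  | false =>
    refine le_antisymm ?_ h.1.2
    rw [hM T false]
    exact h.1.1
  | true =>
    refine le_antisymm h.2.1 ?_
    rw [hM T true]
    exact h.2.2

/-- REB. -/
theorem t_REB : S_REA → S_ROB → S_REB := by
  intro hREA hROB μ a b hG d
  obtain ⟨M, hM⟩ := hROB a b hG.nn hG.lt
  refine ⟨M, fun δ hδ => ?_⟩
  obtain ⟨q, hq, h⟩ := hREA μ a b hG d M δ hδ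
  refine ⟨q, hq, fun n hn T hT => ?_⟩
  rw [← hM n hn T false, ← hM n hn T true]
  exact h n hn T hT

end Pool.Agent.H769.MW.ROB
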